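import Pool.Agent.H662.Z7

/-!
# Maximal coarsenings of models of 0-h-minimal theories satisfy all levels of h-minimality
-/

set_option autoImplicit false

namespace Pool.Agent.Results.MP_0e4269_lc.MaxCoarseningAllLevels

open FirstOrder Language Structure Pool.Agent.R611.HM Pool.Agent.R611.CO

universe u

/-- Let `T` be a 0-h-minimal theory of valued fields of equicharacteristic zero, let `K` be a model
of `T` with valuation ring `O` and let `Oc` be a valuation ring with `O ⊆ Oc ⊊ K`. If no valuation
ring strictly between `Oc` and `K` is definable with parameters in `K` expanded by a predicate for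
`Oc`, then the theory of this expansion is `s`-h-minimal with respect to `Oc`, for every `s`
including `s = ω`. -/
theorem result (L : FirstOrder.Language.{u, u}) (sy : ValSymbols L) (T : L.Theory)
    (hT : IsValuedTheory sy T) (h : HMin sy T 0) (K : Type u) [L.Structure K] [Field K]
    (O : ValuationSubring K) (hK : K ⊨ T) (hO : IsValued sy O) (Oc : ValuationSubring K)
    (hle : O ≤ Oc) (hnt : Oc ≠ ⊤) :
    letI : CoLang.{u}.Structure K := coStr Oc
    (∀ R : ValuationSubring K, Oc ≤ R →
      (Set.univ : Set K).Definable₁ (L.sum CoLang.{u}) (R : Set K) → R = Oc ∨ R = ⊤) →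
    ∀ s : ℕ∞, HMin (coSym sy) ((L.sum CoLang.{u}).completeTheory K) s := by
  letI : CoLang.{u}.Structure K := coStr Oc
  intro hR s
  have hc : CharZero (IsLocalRing.ResidueField Oc) :=
    charZero_of_nat _ (nat_of_le hle hO.vf.nat)
  have h1 : HMin (coSym sy) ((L.sum CoLang.{u}).completeTheory K) 0 :=
    coars_of_hMin h K O hK hO Oc hle hnt hc
  have h2 : HMinTh (coSym sy) K 0 := fun K' _ _ O' hKK hO' =>
    hMinNe_of' hO' (h1 K' O' ((Theory.model_iff _).2 fun φ hφ =>
      (elementarilyEquivalent_iff.1 hKK φ).1 (mem_completeTheory.1 hφ)) hO')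
  have h3 := Pool.Agent.H662.Z.main_th (isValued_co hO hc) h2 hR s
  intro K' _ _ O' hK' hO'
  refine hMinAt_of' (h3 K' O' ?_ hO')
  rw [elementarilyEquivalent_iff]
  intro φ
  constructor
  · intro hφ
    exact Theory.realize_sentence_of_mem ((L.sum CoLang.{u}).completeTheory K)
      (mem_completeTheory.2 hφ)
  · intro hφ
    by_contra hcon
    have h4 : K ⊨ φ.not := (Sentence.realize_not K).2 hcon
    have h5 : K' ⊨ φ.not := Theory.realize_sentence_of_mem
      ((L.sum CoLang.{u}).completeTheory K) (mem_completeTheory.2 h4)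
    exact (Sentence.realize_not K').1 h5 hφ

end Pool.Agent.Results.MP_0e4269_lc.MaxCoarseningAllLevels
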